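import Pool.Agent.H528R2.Hier

/-!
# All lists written by the first `n` programs in time `(n + 2) ^ c`

`allOut c x`, for a bit string `x` of length `n`, is the concatenation of the lists of numbers
written, on input `x`, by the first `n` programs run for `(n + 2) ^ c` steps.  It is computable in
polynomial time and it contains the output of every polynomial-time computable list.
-/

namespace Pool.Agent.TH415.UL

open Pool.Agent.H583R2 (spl mE U PF exists_mE)
open Pool.Agent.H528R2.Hier
open Pool.Agent.NPC (PolyTime pairBits unbits)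

/-- run program number `|(spl y).1|` on `(spl y).2` for `(|(spl y).2| + 2) ^ c` steps -/
def hh (c : ℕ) (y : List Bool) : List Bool :=
  (U (mE (spl y).1.length) (spl y).2 (((spl y).2.length + 2) ^ c)).getD []

theorem pf_hh (c : ℕ) : PF (hh c) := by
  have h1 : PF (fun y : List Bool => (spl y).1) := PF.fst' (PF.spl PF.id)
  have h2 : PF (fun y : List Bool => (spl y).2) := PF.snd' (PF.spl PF.id)
  have h3 : PF (fun y : List Bool => ((spl y).2.length + 2) ^ c) :=
    pf_pow (PF.add (PF.length h2) (PF.const 2)) c
  have h4 : PF (fun y : List Bool => mE (spl y).1.length) := PF.mE (PF.length h1)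
  have hU := PF.U.comp (PF.pair h4 (PF.pair h2 h3))
  have h5 := PF.getD hU (PF.const [])
  exact h5

theorem poly_hh (c : ℕ) : NPC.Poly (hh c) :=
  H622R2.poly_of_polyTime (polyTime_of_pf (pf_hh c))

theorem hh_pair (c e : ℕ) (x : List Bool) : hh c (pairBits (List.replicate e true) x) =
    (U (mE e) x ((x.length + 2) ^ c)).getD [] := by
  unfold hh
  rw [spl_pairBits]
  simp only [List.length_replicate]

/-- the concatenation of the lists written by the first `|x|` programs on `x` -/
def allOut (c : ℕ) (x : List Bool) : List ℕ :=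
  (List.range x.length).flatMap fun e =>
    (unbits (List ℕ) (hh c (pairBits (List.replicate e true) x))).getD []

end Pool.Agent.TH415.UL

namespace Pool.Agent.NPC.TH415UL

open Pool.Agent.NPC Pool.Agent.TH415.UL

theorem poly_getD {α β : Type} [TEnc α] [TEnc β] {o : α → Option (List β)} (ho : Poly o) :
    Poly (fun a => (o a).getD []) :=
  (Poly.optCases (g := fun _ => ([] : List β)) (h := fun _ b => b) ho (Poly.const [])
    (Poly.snd Poly.id)).congr fun a => by cases o a <;> rfl

theorem poly_rep {α : Type} [TEnc α] {n : α → ℕ} (hn : UPoly n) :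
    Poly (fun a => List.replicate (n a) true) :=
  (Poly.map (l := fun a => List.replicate (n a) ()) (F := fun _ _ => true) hn
    (Poly.const true)).congr fun a => by simp

theorem poly_allOut_aux (c : ℕ) : Poly (fun q : List Bool × ℕ =>
    (unbits (List ℕ) (hh c (pairBits (List.replicate (min q.2 q.1.length) true) q.1))).getD []) := by
  have hx : Poly (fun q : List Bool × ℕ => q.1) := Poly.fst Poly.id
  have hm : UPoly (fun q : List Bool × ℕ => min q.2 q.1.length) :=
    UPoly.of_le (Poly.min (Poly.snd Poly.id) (UPoly.length hx).toPoly) (UPoly.length hx)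
      fun _ => min_le_right _ _
  have h1 : Poly (fun q : List Bool × ℕ =>
      pairBits (List.replicate (min q.2 q.1.length) true) q.1) :=
    H622R2.poly_pairBits (poly_rep hm) hx
  have h2 := (poly_hh c).comp h1
  have h3 := (poly_unbits (α := List ℕ)).comp h2
  have h4 := poly_getD h3
  exact h4

theorem allOut_eq (c : ℕ) (x : List Bool) : (List.range x.length).flatMap (fun e =>
    (unbits (List ℕ) (hh c (pairBits (List.replicate (min e x.length) true) x))).getD []) =
      allOut c x := by
  unfold allOut
  rw [List.flatMap_def, List.flatMap_def]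
  refine congrArg List.flatten (List.map_congr_left fun e he => ?_)
  rw [List.mem_range] at he
  rw [min_eq_left he.le]

theorem poly_allOut (c : ℕ) : Poly (allOut c) := by
  have h := Poly.flatMap (l := fun x : List Bool => List.range x.length)
      (F := fun x e => (unbits (List ℕ)
        (hh c (pairBits (List.replicate (min e x.length) true) x))).getD [])
      (UPoly.length Poly.id).range (poly_allOut_aux c)
  exact h.congr (allOut_eq c)

end Pool.Agent.NPC.TH415UL

namespace Pool.Agent.TH415.UL

open Pool.Agent.H583R2 (spl mE U PF exists_mE)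
open Pool.Agent.H528R2.Hier
open Pool.Agent.NPC (PolyTime pairBits unbits unbits_bits)

/-- every polynomial-time computable list is contained in `allOut c`, for all large `c` and all
long inputs -/
theorem mem_allOut {V : List Bool → List Bool} (hV : PolyTime V) :
    ∃ c₀ e₀ : ℕ, ∀ c ≥ c₀, ∀ x : List Bool, e₀ < x.length → ∀ l : List ℕ, V x = NPC.bits l →
      ∀ a ∈ l, a ∈ allOut c x := by
  obtain ⟨cd, k, hk⟩ := code_of_polyTime hV
  obtain ⟨e, -, he⟩ := exists_mE cd 0
  refine ⟨k, e, fun c hc x hx l hl a ha => ?_⟩
  unfold allOut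
  rw [List.mem_flatMap]
  refine ⟨e, List.mem_range.2 hx, ?_⟩
  rw [hh_pair, he, hk x _ (Nat.pow_le_pow_right (by omega) hc), Option.getD_some, hl, unbits_bits,
    Option.getD_some]
  exact ha

/-- the length of the list is polynomially bounded -/
theorem length_allOut (c : ℕ) : ∃ A : ℕ, ∀ p : ℕ, 2 ≤ p.size →
    (allOut c (Nat.bits p)).length ≤ p.size ^ A := by
  have h1 : NPC.Poly (fun p : ℕ => allOut c (Nat.bits p)) :=
    (NPC.TH415UL.poly_allOut c).comp (NPC.Poly.natBits NPC.Poly.id)
  obtain ⟨q, hq⟩ := h1.sz_le
  obtain ⟨k, hk⟩ := poly_le_pow (q.comp (Polynomial.C 4 * Polynomial.X + Polynomial.C 1))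
  refine ⟨2 * k, fun p hp => ?_⟩
  have h2 := NPC.length_lt_sz (allOut c (Nat.bits p))
  have h3 := hq p
  have h4 := NPC.sz_nat_le p
  have h5 := hk p.size
  rw [Polynomial.eval_comp] at h5
  simp only [Polynomial.eval_add, Polynomial.eval_mul, Polynomial.eval_C, Polynomial.eval_X] at h5
  have h6 : q.eval (NPC.sz p) ≤ q.eval (4 * p.size + 1) := NPC.eval_mono _ h4
  have h7 : (p.size + 2) ^ k ≤ p.size ^ (2 * k) := by
    rw [pow_mul]
    exact Nat.pow_le_pow_left (by nlinarith) k
  exact h2.le.trans (h3.trans (h6.trans (h5.trans h7)))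

end Pool.Agent.TH415.UL
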