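import Pool.Agent.H595R2.PR.Core

/-!
# Candidate generators for the subgroup generated by a list

`candsL C l p` is a list of `(size p) ^ C` residues modulo `p`, computed from `p` and a list `l` of
numbers; for a prime `p` all but `l.length * size p` of them generate the subgroup of `(ℤ/p)ˣ`
generated by the entries of `l` prime to `p`.
-/

namespace Pool.Agent.TH415.UL

open Finset Pool.Agent.H595R2.PR

/-- `∏ l_j ^ (a ^ j)` modulo `p` -/
def hornerL (p : ℕ) (l : List ℕ) (a : ℕ) : ℕ :=
  l.foldr (fun x acc => md p (x * pw p acc a)) (md p 1)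

/-- an element of maximal order in the `q`-part -/
def bestL (p n : ℕ) (l : List ℕ) (q : ℕ) : ℕ :=
  (l.map fun x => pw p x (strip q n (p - 1))).foldl
    (fun b x => if better p n q b x then x else b) (md p 1)

/-- the part for the small primes -/
def smallL (p n L : ℕ) (l : List ℕ) : ℕ :=
  (List.range (L + 1)).foldl (fun acc q => if isPr q then md p (acc * bestL p n l q) else acc)
    (md p 1)

/-- the candidate with index `a` -/
def candL (p n L : ℕ) (l : List ℕ) (a : ℕ) : ℕ :=
  md p (smallL p n L l * kill p n L (hornerL p l a))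

/-- the entries of `l` not divisible by `p` -/
def prep (p : ℕ) (l : List ℕ) : List ℕ := l.filter (fun x => !decide (x % p = 0))

/-- the list of candidates -/
def candsL (C : ℕ) (l : List ℕ) (p : ℕ) : List ℕ :=
  (List.range (p.size ^ C)).map (candL p p.size (p.size ^ C) (prep p l))

/-- the subgroup generated by the units among the entries of `l` -/
def GamL (p : ℕ) (l : List ℕ) : Subgroup (ZMod p)ˣ :=
  Subgroup.closure {u | ∃ x ∈ l, (u : ZMod p) = ((x : ℕ) : ZMod p)}

theorem map_eq_range {α : Type} (l : List ℕ) (f : ℕ → α) :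
    l.map f = (List.range l.length).map (fun i => f (l.getD i 1)) := by
  apply List.ext_getElem
  · simp
  · intro i h1 h2
    have h3 : i < l.length := by simpa using h1
    simp only [List.getElem_map, List.getElem_range]
    rw [List.getD_eq_getElem l 1 h3]

section cor

variable {p : ℕ} [hp : Fact p.Prime]

theorem cor_hornerL (l : List ℕ) (a : ℕ) :
    ((hornerL p l a : ℕ) : ZMod p) = ∏ j ∈ range l.length, ((l.getD j 1 : ℕ) : ZMod p) ^ (a ^ j) := by
  unfold hornerL
  induction l with
  | nil => simp [cor_md]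
  | cons x l ih =>
    rw [List.foldr_cons, cor_md, Nat.cast_mul, cor_pw, ih, List.length_cons, prod_range_succ',
      ← prod_pow, pow_zero, pow_one, mul_comm, List.getD_cons_zero]
    congr 1
    apply prod_congr rfl
    intro j _
    rw [List.getD_cons_succ, ← pow_mul, pow_succ]

/-- a number as a unit -/
noncomputable def toU (p : ℕ) [Fact p.Prime] (x : ℕ) : (ZMod p)ˣ :=
  open Classical in
  if h : ((x : ℕ) : ZMod p) ≠ 0 then Units.mk0 _ h else 1

theorem toU_val {x : ℕ} (h : ((x : ℕ) : ZMod p) ≠ 0) : ((toU p x : (ZMod p)ˣ) : ZMod p) = (x : ZMod p) := by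
  unfold toU
  rw [dif_pos h, Units.val_mk0]

open Classical in
/-- the selected element -/
noncomputable def corbL (p : ℕ) [Fact p.Prime] (n : ℕ) (l : List ℕ) (q : ℕ) : (ZMod p)ˣ :=
  ((List.range l.length).map fun i => toU p (l.getD i 1) ^ (strip q n (p - 1))).foldl
      (fun b x => if (∃ k ≤ n, b ^ (q ^ k) = 1 ∧ x ^ (q ^ k) ≠ 1) then x else b) 1

theorem cor_bestL {n q : ℕ} {l : List ℕ} (hl : ∀ x ∈ l, ((x : ℕ) : ZMod p) ≠ 0) :
    ((bestL p n l q : ℕ) : ZMod p) = ((corbL p n l q : (ZMod p)ˣ) : ZMod p) := by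
  unfold bestL corbL
  rw [map_eq_range l]
  apply cor_fold
  · rw [List.forall₂_map_left_iff, List.forall₂_map_right_iff, List.forall₂_same]
    intro i hi
    rw [List.mem_range] at hi
    refine ⟨cor_pw_lt _ _, ?_⟩
    have h : l.getD i 1 ∈ l := by
      rw [List.getD_eq_getElem l 1 hi]
      exact List.getElem_mem hi
    rw [cor_pw, Units.val_pow_eq_pow_val, toU_val (hl _ h)]
  · exact cor_md_lt 1
  · rw [cor_md]; simp

theorem cor_smallL {n L : ℕ} {l : List ℕ} (hl : ∀ x ∈ l, ((x : ℕ) : ZMod p) ≠ 0) :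
    ((smallL p n L l : ℕ) : ZMod p) =
      ((∏ q ∈ (range (L + 1)).filter Nat.Prime, corbL p n l q : (ZMod p)ˣ) : ZMod p) := by
  unfold smallL
  rw [prod_filter]
  generalize L + 1 = K
  induction K with
  | zero => simp [cor_md]
  | succ K ih =>
    rw [List.range_succ, List.foldl_append, List.foldl_cons, List.foldl_nil, prod_range_succ]
    by_cases hK : K.Prime
    · rw [if_pos ((isPr_iff K).2 hK), if_pos hK, cor_md, Nat.cast_mul, ih, cor_bestL hl,
        Units.val_mul]
    · rw [if_neg (fun h => hK ((isPr_iff K).1 h)), if_neg hK, mul_one, ih]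

end cor

/-- The candidate, as an element of the group `(ℤ/p)ˣ`. -/
theorem candL_eq {p n L : ℕ} {l : List ℕ} [Fact p.Prime] (hl : ∀ x ∈ l, ((x : ℕ) : ZMod p) ≠ 0)
    (hn : p < 2 ^ n) :
    ∃ (t : ℕ → (ZMod p)ˣ) (b : ℕ → (ZMod p)ˣ) (E : ℕ),
      GamL p l = Subgroup.closure (t '' Set.Iio l.length) ∧
      (∀ q, q.Prime → q ≤ L → orderOf (b q) = q ^ (Nat.card (GamL p l)).factorization q) ∧
      (∀ q, q.Prime → q ≤ L → q ^ (Nat.card (GamL p l)).factorization q ∣ E) ∧
      (∀ q, q.Prime → q ∣ E → q ≤ L) ∧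
      ∀ a, ((candL p n L l a : ℕ) : ZMod p) =
        (((∏ q ∈ (range (L + 1)).filter Nat.Prime, b q) *
          (∏ i ∈ range l.length, t i ^ (a ^ i)) ^ E : (ZMod p)ˣ) : ZMod p) := by
  have hp : p.Prime := Fact.out
  have hp1 : 0 < p - 1 := by have := hp.one_lt; omega
  have hcard : Nat.card (ZMod p)ˣ = p - 1 := by
    rw [Nat.card_eq_fintype_card, ZMod.card_units]
  have hval : ∀ i < l.length, ((toU p (l.getD i 1) : (ZMod p)ˣ) : ZMod p) =
      ((l.getD i 1 : ℕ) : ZMod p) := by
    intro i hi
    apply toU_val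
    apply hl
    rw [List.getD_eq_getElem l 1 hi]
    exact List.getElem_mem hi
  have hGam : GamL p l = Subgroup.closure ((fun i => toU p (l.getD i 1)) '' Set.Iio l.length) := by
    unfold GamL
    congr 1
    ext u
    constructor
    · rintro ⟨x, hx, hu⟩
      obtain ⟨i, hi, hix⟩ := List.getElem_of_mem hx
      refine ⟨i, hi, Units.ext ?_⟩
      change ((toU p (l.getD i 1) : (ZMod p)ˣ) : ZMod p) = _
      rw [hval i hi, List.getD_eq_getElem l 1 hi, hix, hu]
    · rintro ⟨i, hi, rfl⟩
      refine ⟨l.getD i 1, ?_, hval i hi⟩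
      rw [List.getD_eq_getElem l 1 hi]
      exact List.getElem_mem hi
  have hcardG : Nat.card (GamL p l) ≤ p - 1 := by
    rw [← hcard]
    exact Subgroup.card_le_card_group _
  have hcard0 : Nat.card (GamL p l) ≠ 0 := Nat.card_pos.ne'
  refine ⟨fun i => toU p (l.getD i 1), corbL p n l, ∏ d ∈ range L, (d + 1) ^ n, hGam, ?_, ?_,
    ?_, ?_⟩
  · intro q hq _
    unfold corbL
    have h := best_alg (fun i => toU p (l.getD i 1)) l.length n q (strip q n (p - 1)) (GamL p l)
      hGam hq (by omega) (by rw [hcard]; exact strip_eq hq hp1 (by omega))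
    convert h
    rfl
  · intro q hq hqL
    have hv : (Nat.card (GamL p l)).factorization q ≤ n := by
      have h1 : q ^ (Nat.card (GamL p l)).factorization q ≤ Nat.card (GamL p l) :=
        Nat.ordProj_le q hcard0
      have h2 : 2 ^ (Nat.card (GamL p l)).factorization q ≤
          q ^ (Nat.card (GamL p l)).factorization q := Nat.pow_le_pow_left hq.two_le _
      have h3 : 2 ^ (Nat.card (GamL p l)).factorization q < 2 ^ n := by omega
      exact ((Nat.pow_lt_pow_iff_right (by norm_num)).1 h3).le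
    refine (pow_dvd_pow q hv).trans ?_
    have hmem : q - 1 ∈ range L := by
      rw [mem_range]
      have := hq.pos
      omega
    have := dvd_prod_of_mem (fun d => (d + 1) ^ n) hmem
    have e : q - 1 + 1 = q := Nat.sub_add_cancel hq.pos
    simpa only [e] using this
  · intro q hq hd
    obtain ⟨d, hd1, hd2⟩ := (Prime.dvd_finsetProd_iff hq.prime _).1 hd
    have h1 := hq.dvd_of_dvd_pow hd2
    have h2 := Nat.le_of_dvd (by omega) h1
    rw [mem_range] at hd1
    omega
  · intro a
    unfold candL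
    rw [cor_md, Nat.cast_mul, cor_smallL hl, cor_kill, cor_hornerL, Units.val_mul,
      Units.val_pow_eq_pow_val]
    congr 2
    rw [Units.coe_prod]
    apply prod_congr rfl
    intro i hi
    rw [Units.val_pow_eq_pow_val, hval i (mem_range.1 hi)]

theorem GamL_prep {p : ℕ} [Fact p.Prime] (l : List ℕ) : GamL p (prep p l) = GamL p l := by
  unfold GamL
  congr 1
  ext u
  constructor
  · rintro ⟨x, hx, hu⟩
    exact ⟨x, (List.mem_filter.1 hx).1, hu⟩
  · rintro ⟨x, hx, hu⟩
    refine ⟨x, List.mem_filter.2 ⟨hx, ?_⟩, hu⟩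
    rw [Bool.not_eq_true', decide_eq_false_iff_not]
    intro h
    have h1 : ((x : ℕ) : ZMod p) = 0 := (ZMod.natCast_eq_zero_iff x p).2 (Nat.dvd_of_mod_eq_zero h)
    rw [h1] at hu
    exact u.ne_zero hu

/-- the entry of index `a` generates `Γ` -/
def Gn (p : ℕ) (Γ : Subgroup (ZMod p)ˣ) (g : ℕ) : Prop :=
  ∃ u : (ZMod p)ˣ, (u : ZMod p) = (g : ZMod p) ∧ Subgroup.zpowers u = Γ

open Classical in
/-- For every prime `p` all but `l.length * size p` candidates generate the subgroup generated by
the entries of `l`. -/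
theorem coreL (C : ℕ) (l : List ℕ) (p : ℕ) (hpp : p.Prime) :
    #{a ∈ range (p.size ^ C) | ¬ Gn p (GamL p l) ((candsL C l p).getD a 0)} ≤
      l.length * p.size := by
  have : Fact p.Prime := ⟨hpp⟩
  have hl' : ∀ x ∈ prep p l, ((x : ℕ) : ZMod p) ≠ 0 := by
    intro x hx
    have h := (List.mem_filter.1 hx).2
    rw [Bool.not_eq_true', decide_eq_false_iff_not] at h
    intro h1
    exact h (Nat.mod_eq_zero_of_dvd ((ZMod.natCast_eq_zero_iff x p).1 h1))
  obtain ⟨t, b, E, hΓ, hb, hE, hE', hc⟩ := candL_eq (p := p) (n := p.size) (L := p.size ^ C)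
    hl' (Nat.lt_size_self p)
  have h1 := main_alg t (prep p l).length (p.size ^ C) (GamL p (prep p l)) hΓ b hb E hE hE'
  have h2 : #{q ∈ (Nat.card (GamL p (prep p l))).primeFactors | p.size ^ C < q} ≤ p.size := by
    refine (card_filter_le _ _).trans (card_primeFactors_le Nat.card_pos ?_)
    refine lt_of_le_of_lt (Subgroup.card_le_card_group _) ?_
    rw [Nat.card_eq_fintype_card, ZMod.card_units]
    exact lt_of_le_of_lt (Nat.sub_le _ _) (Nat.lt_size_self p)
  have h3 : (prep p l).length ≤ l.length := List.length_filter_le _ _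
  refine le_trans (card_le_card ?_) (h1.trans (Nat.mul_le_mul ((Nat.sub_le _ _).trans h3) h2))
  intro a ha
  obtain ⟨ha1, ha2⟩ := mem_filter.1 ha
  refine mem_filter.2 ⟨ha1, fun hord => ha2
    ⟨_, ?_, (zpowers_eq_of_orderOf _ hord).trans (GamL_prep l)⟩⟩
  rw [← hc a]
  congr 1
  unfold candsL
  rw [List.getD_eq_getElem?_getD, List.getElem?_map, List.getElem?_range (by simpa using ha1)]
  rfl

end Pool.Agent.TH415.UL
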