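import Pool.Agent.TH415.UL.Lst

/-! # The list of candidates is computable in polynomial time from the list -/

namespace Pool.Agent.NPC.TH415UL

open Pool.Agent.NPC Pool.Agent.NPC.H595POL Pool.Agent.H595R2.PR Pool.Agent.TH415.UL

variable {α : Type} [TEnc α]

theorem poly_hornerL {p e : α → ℕ} {l : α → List ℕ} (hp : Poly p) (hl : Poly l) (he : Poly e) :
    Poly (fun a => hornerL (p a) (l a) (e a)) := by
  refine foldrN (l := l) (s := fun a => md (p a) 1)
    (F := fun a x acc => md (p a) (x * pw (p a) acc (e a)))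
    (B := fun a => max (p a) 1) hl (poly_md hp (Poly.const 1)) ?_ (poly_mx hp)
    (fun a => md_le _ _) (fun a c _ x _ => md_le _ _)
  have hp' : Poly (fun q : α × ℕ × ℕ => p q.1) := hp.comp (Poly.fst Poly.id)
  have he' : Poly (fun q : α × ℕ × ℕ => e q.1) := he.comp (Poly.fst Poly.id)
  exact poly_md hp' (Poly.mul (Poly.fst (Poly.snd Poly.id))
    (poly_pw hp' (Poly.snd (Poly.snd Poly.id)) he'))

theorem poly_bestL {p n q : α → ℕ} {l : α → List ℕ} (hp : Poly p) (hn : UPoly n) (hl : Poly l)
    (hq : Poly q) : Poly (fun a => bestL (p a) (n a) (l a) (q a)) := by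
  refine foldlN (l := fun a => (l a).map fun x =>
      pw (p a) x (strip (q a) (n a) (p a - 1))) (s := fun a => md (p a) 1)
    (F := fun a b x => if better (p a) (n a) (q a) b x then x else b)
    (B := fun a => max (p a) 1) ?_ (poly_md hp (Poly.const 1)) ?_ (poly_mx hp)
    (fun a => md_le _ _) ?_
  · refine Poly.map (l := l)
      (F := fun a x => pw (p a) x (strip (q a) (n a) (p a - 1))) hl ?_
    have hp' : Poly (fun r : α × ℕ => p r.1) := hp.comp (Poly.fst Poly.id)
    exact poly_pw hp' (Poly.snd Poly.id) (poly_strip (hq.comp (Poly.fst Poly.id))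
      (hn.comp (Poly.fst Poly.id)) (Poly.sub hp' (Poly.const 1)))
  · have hp' : Poly (fun r : α × ℕ × ℕ => p r.1) := hp.comp (Poly.fst Poly.id)
    exact Poly.ite (p := fun r : α × ℕ × ℕ => better (p r.1) (n r.1) (q r.1) r.2.1 r.2.2 = true)
      (Poly.decide_bool (poly_better hp' (hn.comp (Poly.fst Poly.id))
        (hq.comp (Poly.fst Poly.id)) (Poly.fst (Poly.snd Poly.id)) (Poly.snd (Poly.snd Poly.id))))
      (Poly.snd (Poly.snd Poly.id)) (Poly.fst (Poly.snd Poly.id))
  · intro a x hx z hz
    obtain ⟨i, _, rfl⟩ := List.mem_map.1 hx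
    split_ifs
    · exact pw_le _ _ _
    · exact hz

theorem smallL_eq (p n L : ℕ) (l : List ℕ) : smallL p n L l = (List.range (L + 1)).foldl
    (fun acc q => if isPr (min q L) then md p (acc * bestL p n l q) else acc) (md p 1) := by
  unfold smallL
  refine List.foldl_ext _ _ _ fun b a ha => ?_
  rw [List.mem_range] at ha
  have : min a L = a := by omega
  rw [this]

theorem poly_smallL {p n L : α → ℕ} {l : α → List ℕ} (hp : Poly p) (hn : UPoly n) (hL : UPoly L)
    (hl : Poly l) : Poly (fun a => smallL (p a) (n a) (L a) (l a)) := by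
  refine Poly.congr ?_ fun a => (smallL_eq _ _ _ _).symm
  refine foldlN (l := fun a => List.range (L a + 1)) (s := fun a => md (p a) 1)
    (F := fun a acc q => if isPr (min q (L a)) then md (p a) (acc * bestL (p a) (n a) (l a) q)
      else acc) (B := fun a => max (p a) 1) (UPoly.add hL (UPoly.const 1)).range
    (poly_md hp (Poly.const 1)) ?_ (poly_mx hp) (fun a => md_le _ _) ?_
  · have hp' : Poly (fun r : α × ℕ × ℕ => p r.1) := hp.comp (Poly.fst Poly.id)
    have hL' : UPoly (fun r : α × ℕ × ℕ => L r.1) := hL.comp (Poly.fst Poly.id)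
    have hq : Poly (fun r : α × ℕ × ℕ => r.2.2) := Poly.snd (Poly.snd Poly.id)
    have hx : Poly (fun r : α × ℕ × ℕ => r.2.1) := Poly.fst (Poly.snd Poly.id)
    have hm : UPoly (fun r : α × ℕ × ℕ => min r.2.2 (L r.1)) :=
      UPoly.of_le (Poly.min hq hL'.toPoly) hL' fun _ => min_le_right _ _
    exact Poly.ite (p := fun r : α × ℕ × ℕ => isPr (min r.2.2 (L r.1)) = true)
      (Poly.decide_bool (poly_isPr hm)) (poly_md hp' (Poly.mul hx
        (poly_bestL hp' (hn.comp (Poly.fst Poly.id)) (hl.comp (Poly.fst Poly.id)) hq))) hx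
  · intro a q _ x hx
    split_ifs
    · exact md_le _ _
    · exact hx

theorem poly_candL {p n L e : α → ℕ} {l : α → List ℕ} (hp : Poly p) (hn : UPoly n) (hL : UPoly L)
    (hl : Poly l) (he : Poly e) : Poly (fun a => candL (p a) (n a) (L a) (l a) (e a)) :=
  poly_md hp (Poly.mul (poly_smallL hp hn hL hl) (poly_kill hp hn hL (poly_hornerL hp hl he)))

theorem poly_prep {p : α → ℕ} {l : α → List ℕ} (hp : Poly p) (hl : Poly l) :
    Poly (fun a => prep (p a) (l a)) :=
  Poly.filter (l := l) (p := fun a x => !decide (x % p a = 0)) hl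
    (Poly.not (Poly.decide_eq (Poly.mod (Poly.snd Poly.id) (hp.comp (Poly.fst Poly.id)))
      (Poly.const 0)))

theorem poly_candsL (C : ℕ) {p : α → ℕ} {l : α → List ℕ} (hp : Poly p) (hl : Poly l) :
    Poly (fun a => candsL C (l a) (p a)) := by
  have hn : UPoly (fun a => (p a).size) := upoly_size.comp hp
  have hL : UPoly (fun a => (p a).size ^ C) := (upoly_sizepow C).comp hp
  refine Poly.map (l := fun a => List.range ((p a).size ^ C))
    (F := fun a e => candL (p a) (p a).size ((p a).size ^ C) (prep (p a) (l a)) e) hL.range ?_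
  exact poly_candL (hp.comp (Poly.fst Poly.id)) (hn.comp (Poly.fst Poly.id))
    (hL.comp (Poly.fst Poly.id))
    ((poly_prep hp hl).comp (Poly.fst Poly.id)) (Poly.snd Poly.id)

end Pool.Agent.NPC.TH415UL
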