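import Pool.Agent.TH415.UL.Mom
import Pool.Agent.H295R3.Hoheisel

set_option autoImplicit false
set_option maxHeartbeats 4000000

/-! # A positive proportion of the constant terms, unequal leading coefficients -/

namespace TH415.UL

open Finset Pool.Agent.H262R2.UK
open Pool.Agent.H646 Pool.Agent.H646.Sv3M Pool.Agent.H646.TuplesM

open scoped Classical

/-- primes in the short intervals `(a n, a n + a)` -/
theorem first : ∃ δ η : ℝ, 0 < δ ∧ δ < 1 ∧ 0 < η ∧ ∃ a₀ : ℕ, 2 ≤ a₀ ∧ ∀ a : ℕ, a₀ ≤ a →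
    ∀ n : ℕ, 1 ≤ n → (n : ℝ) ≤ (a : ℝ) ^ δ →
    η * (a / Real.log a) ≤ (#((BB a).filter (fun z => (a * n + z).Prime)) : ℝ) := by
  obtain ⟨δ, η, hδ, hδ1, hη, X₀, hX₀, hho⟩ := Pool.Agent.H295R3.D.hoheisel
  refine ⟨δ, η / 2, hδ, hδ1, by positivity, max X₀ 2, le_max_right _ _, ?_⟩
  intro a ha n hn hna
  have haX : X₀ ≤ a := (le_max_left _ _).trans ha
  have ha2 : 2 ≤ a := (le_max_right _ _).trans ha
  have har : (2 : ℝ) ≤ a := by exact_mod_cast ha2
  have ha0 : (0 : ℝ) < a := by linarith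
  have ha1 : (1 : ℝ) ≤ a := by linarith
  have hnr : (1 : ℝ) ≤ n := by exact_mod_cast hn
  have haan : a ≤ a * n := Nat.le_mul_of_pos_right a hn
  have hup : ((a * n : ℕ) : ℝ) ≤ (a : ℝ) ^ (1 + δ) := by
    push_cast
    rw [Real.rpow_add ha0, Real.rpow_one]
    gcongr
  have hp1 : ((a * n : ℕ) : ℝ) ^ (1 - δ) ≤ (a : ℝ) := by
    calc ((a * n : ℕ) : ℝ) ^ (1 - δ) ≤ ((a : ℝ) ^ (1 + δ)) ^ (1 - δ) :=
          Real.rpow_le_rpow (by positivity) hup (by linarith)
      _ = (a : ℝ) ^ ((1 + δ) * (1 - δ)) := by rw [← Real.rpow_mul ha0.le]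
      _ ≤ (a : ℝ) ^ (1 : ℝ) := by
          apply Real.rpow_le_rpow_of_exponent_le ha1
          nlinarith
      _ = a := Real.rpow_one _
  have h1 := hho (a * n) a (haX.trans haan) hp1 haan
  have hla : 0 < Real.log a := Real.log_pos (by linarith)
  have hlan : Real.log ((a * n : ℕ) : ℝ) ≤ 2 * Real.log a := by
    have h2 := Real.log_le_log (by exact_mod_cast (by omega : 0 < a * n)) hup
    rw [Real.log_rpow ha0] at h2
    nlinarith
  have hlan0 : 0 < Real.log ((a * n : ℕ) : ℝ) :=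
    Real.log_pos (by exact_mod_cast (by omega : 1 < a * n))
  have h2 : η / 2 * (a / Real.log a) ≤ η * a / Real.log ((a * n : ℕ) : ℝ) := by
    rw [le_div_iff₀ hlan0]
    calc η / 2 * (a / Real.log a) * Real.log ((a * n : ℕ) : ℝ) ≤
        η / 2 * (a / Real.log a) * (2 * Real.log a) := by gcongr
      _ = η * a := by field_simp
  refine h2.trans (h1.trans ?_)
  have h3 : ((Ioc (a * n) (a * n + a)).filter Nat.Prime).card ≤
      #((BB a).filter (fun z => (a * n + z).Prime)) := by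
    apply card_le_card_of_injOn (fun p : ℕ => p - a * n)
    · intro p hp
      have hp' := mem_filter.1 (mem_coe.1 hp)
      have hp1 := mem_Ioc.1 hp'.1
      have hpp := hp'.2
      apply mem_coe.2
      have e : a * n + (p - a * n) = p := by omega
      have hne : p ≠ a * n + a := by
        intro h
        have h4 : p = a * (n + 1) := by rw [h]; ring
        rw [h4] at hpp
        exact Nat.not_prime_mul (by omega) (by omega) hpp
      have hcop : a.Coprime (p - a * n) := by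
        have h5 : a.Coprime p := by
          rw [Nat.coprime_comm, Nat.Prime.coprime_iff_not_dvd hpp]
          intro h6
          have := Nat.le_of_dvd (by omega) h6
          omega
        have h7 : a.Coprime (a * n + (p - a * n)) := by rw [e]; exact h5
        rwa [Nat.coprime_mul_left_add_right] at h7
      rw [mem_filter, BB, mem_filter, mem_Ico]
      simp only [e]
      exact ⟨⟨⟨by omega, by omega⟩, hcop⟩, hpp⟩
    · intro p hp q hq h
      have hp' := mem_Ioc.1 (mem_filter.1 (mem_coe.1 hp)).1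
      have hq' := mem_Ioc.1 (mem_filter.1 (mem_coe.1 hq)).1
      simp only at h
      omega
  exact_mod_cast h3

variable {k : ℕ}

/-- few vectors with two equal forms -/
theorem noninj (a : Fin k → ℕ) (m : ℕ) (hm : ∀ i, m ≤ #(BB (a i))) :
    #((Om a).filter (fun b => ¬ Function.Injective (fun i => (a i, b i)))) * m ≤ k ^ 2 * #(Om a) := by
  have hsub : (Om a).filter (fun b => ¬ Function.Injective (fun i => (a i, b i))) ⊆
      ((univ : Finset (Fin k × Fin k)).filter (fun q => q.1 ≠ q.2)).biUnion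
        (fun q => (Om a).filter (fun b => b q.1 = b q.2)) := by
    intro b hb
    rw [Finset.mem_filter] at hb
    obtain ⟨hb1, hb2⟩ := hb
    unfold Function.Injective at hb2
    push Not at hb2
    obtain ⟨i, j, hij, hne⟩ := hb2
    rw [Finset.mem_biUnion]
    refine ⟨(i, j), ?_, ?_⟩
    · rw [Finset.mem_filter]; exact ⟨Finset.mem_univ _, hne⟩
    · rw [Finset.mem_filter]; exact ⟨hb1, (Prod.ext_iff.1 hij).2⟩
  have hone : ∀ q ∈ (univ : Finset (Fin k × Fin k)).filter (fun q => q.1 ≠ q.2),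
      #((Om a).filter (fun b => b q.1 = b q.2)) * m ≤ #(Om a) := by
    intro q hq
    rw [Finset.mem_filter] at hq
    refine (Nat.mul_le_mul_left _ (hm q.1)).trans ?_
    rw [← Finset.card_product]
    apply Finset.card_le_card_of_injOn (fun u => Function.update u.1 q.1 u.2)
    · rintro ⟨b, c⟩ hb
      rw [Finset.mem_coe, Finset.mem_product, Finset.mem_filter, Om, Fintype.mem_piFinset] at hb
      rw [Finset.mem_coe, Om, Fintype.mem_piFinset]
      intro j
      by_cases hj : j = q.1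
      · subst hj; simpa using hb.2
      · simp only [Function.update_of_ne hj]
        exact hb.1.1 j
    · rintro ⟨b, c⟩ hb ⟨b', c'⟩ hb' h
      rw [Finset.mem_coe, Finset.mem_product, Finset.mem_filter] at hb hb'
      have h' : Function.update b q.1 c = Function.update b' q.1 c' := h
      have hc : c = c' := by
        have := congrFun h' q.1
        simpa using this
      have h2 : ∀ j, j ≠ q.1 → b j = b' j := by
        intro j hj
        have := congrFun h' j
        rwa [Function.update_of_ne hj, Function.update_of_ne hj] at this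
      have hbb : b = b' := by
        funext j
        by_cases hj : j = q.1
        · have e1 : b q.1 = b q.2 := hb.1.2
          have e2 : b' q.1 = b' q.2 := hb'.1.2
          rw [hj, e1, e2]
          exact h2 q.2 (Ne.symm hq.2)
        · exact h2 j hj
      rw [hbb, hc]
  calc _ ≤ (∑ q ∈ (univ : Finset (Fin k × Fin k)).filter (fun q => q.1 ≠ q.2),
        #((Om a).filter (fun b => b q.1 = b q.2))) * m :=
        Nat.mul_le_mul_right _ ((card_le_card hsub).trans card_biUnion_le)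
    _ = ∑ q ∈ (univ : Finset (Fin k × Fin k)).filter (fun q => q.1 ≠ q.2),
        #((Om a).filter (fun b => b q.1 = b q.2)) * m := by rw [sum_mul]
    _ ≤ ∑ q ∈ (univ : Finset (Fin k × Fin k)).filter (fun q => q.1 ≠ q.2), #(Om a) :=
        sum_le_sum hone
    _ ≤ _ := by
        rw [sum_const, smul_eq_mul]
        apply Nat.mul_le_mul_right
        refine (Finset.card_filter_le _ _).trans ?_
        rw [Finset.card_univ, Fintype.card_prod, Fintype.card_fin, sq]

/-- many simultaneous primes force admissibility -/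
theorem adm (a b : Fin k → ℕ) (T : Finset ℕ) (ha : ∀ i, 1 ≤ a i) (h : k < RT a T b) (p : ℕ)
    (hp : p.Prime) : ∃ n : ℤ, ∀ i, ¬ (p : ℤ) ∣ a i * n + b i := by
  by_contra hcon
  push Not at hcon
  have h1 : ∀ n ∈ T.filter (fun n => ∀ i, (a i * n + b i).Prime), ∃ i : Fin k, a i * n + b i = p := by
    intro n hn
    rw [mem_filter] at hn
    obtain ⟨i, hi⟩ := hcon (n : ℤ)
    refine ⟨i, ?_⟩
    have h2 : p ∣ a i * n + b i := by exact_mod_cast hi
    exact ((Nat.prime_dvd_prime_iff_eq hp (hn.2 i)).1 h2).symm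
  obtain ⟨i₀, -⟩ := hcon 0
  have : Nonempty (Fin k) := ⟨i₀⟩
  choose! f hf using h1
  have h2 : #(T.filter (fun n => ∀ i, (a i * n + b i).Prime)) ≤ #(univ : Finset (Fin k)) := by
    apply Finset.card_le_card_of_injOn f (fun _ _ => mem_coe.2 (mem_univ _))
    intro n hn m hm hnm
    have e1 := hf n (mem_coe.1 hn)
    have e2 := hf m (mem_coe.1 hm)
    rw [hnm] at e1
    have e3 : a (f m) * n = a (f m) * m := by omega
    exact Nat.eq_of_mul_eq_mul_left (ha _) e3
  rw [card_univ, Fintype.card_fin] at h2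
  unfold RT at h
  omega

theorem main : ∃ δ : ℝ, 0 < δ ∧ δ < 1 ∧ ∀ k : ℕ, ∀ ρ : ℝ, 0 < ρ → ∃ κ : ℝ, 0 < κ ∧
    ∃ C : ℝ, ∃ a₀ : ℕ, ∀ a : Fin k → ℕ, (∀ i, a₀ ≤ a i) → ∀ y x : ℕ,
    C * ∏ i, ((a i).totient * Real.log (a i) / a i) ≤ x →
    (∀ i, ((y + x : ℕ) : ℝ) ≤ (a i : ℝ) ^ δ) → ∀ T ⊆ Ioc y (y + x), ρ * x ≤ (#T : ℝ) →
    κ * ∏ i, ((a i).totient : ℝ) ≤ (#((Om a).filter (fun b =>
      Function.Injective (fun i => (a i, b i)) ∧ k < RT a T b ∧
      κ * #T * ∏ i, ((a i : ℝ) / ((a i).totient * Real.log (a i))) ≤ RT a T b ∧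
      κ * RT a T b ≤ #T * ∏ i, ((a i : ℝ) / ((a i).totient * Real.log (a i))))) : ℝ) := by
  obtain ⟨δ, η, hδ, hδ1, hη, a1, ha1, hfirst⟩ := first
  refine ⟨δ, hδ, hδ1, fun k ρ hρ => ?_⟩
  obtain ⟨C5, hC5, a2, ha2, hsec⟩ := second k
  set κ₁ : ℝ := ρ * η ^ (2 * k) / (8 * C5) with hκ₁
  have hκ₁0 : 0 < κ₁ := by positivity
  set K : ℝ := 4 * C5 ^ k / κ₁ with hK
  have hK0 : 0 < K := by positivity
  set κ : ℝ := min (κ₁ / 2) (min (η ^ k / 2) (1 / K)) with hκ
  have hκ0 : 0 < κ := by positivity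
  have hκa : κ ≤ κ₁ / 2 := min_le_left _ _
  have hκb : κ ≤ η ^ k / 2 := (min_le_right _ _).trans (min_le_left _ _)
  have hκc : κ ≤ 1 / K := (min_le_right _ _).trans (min_le_right _ _)
  set Φ0 : ℝ := 4 * k ^ 2 / κ₁ + 1 with hΦ0
  refine ⟨κ, hκ0, max 1 ((k + 1) / (κ * ρ)), max (max a1 a2) (max 10 ⌈(4 * Φ0) ^ 2⌉₊), ?_⟩
  intro a ha y x hx hxa T hT hTc
  have hA1 : ∀ i, a1 ≤ a i := fun i => ((le_max_left _ _).trans (le_max_left _ _)).trans (ha i)
  have hA2 : ∀ i, a2 ≤ a i := fun i => ((le_max_right _ _).trans (le_max_left _ _)).trans (ha i)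
  have hA10 : ∀ i, 10 ≤ a i := fun i => ((le_max_left _ _).trans (le_max_right _ _)).trans (ha i)
  have hAΦ : ∀ i, ⌈(4 * Φ0) ^ 2⌉₊ ≤ a i := fun i =>
    ((le_max_right _ _).trans (le_max_right _ _)).trans (ha i)
  have har : ∀ i, (10 : ℝ) ≤ a i := fun i => by exact_mod_cast hA10 i
  have hlog : ∀ i, 0 < Real.log (a i) := fun i => Real.log_pos (by linarith [har i])
  have hφ : ∀ i, (0 : ℝ) < (a i).totient := fun i => by
    exact_mod_cast Nat.totient_pos.2 (by have := hA10 i; omega)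
  set s : Fin k → ℝ := fun i => (a i).totient * Real.log (a i) / a i with hs
  set q : Fin k → ℝ := fun i => (a i : ℝ) / Real.log (a i) with hq
  have hs0 : ∀ i, 0 < s i := fun i => by
    have := har i; have := hlog i; have := hφ i
    simp only [hs]; positivity
  have hq0 : ∀ i, 0 < q i := fun i => by
    have := har i; have := hlog i
    simp only [hq]; positivity
  set S : ℝ := ∏ i, s i with hS
  set Q : ℝ := ∏ i, q i with hQ
  set Φ : ℝ := ∏ i, ((a i).totient : ℝ) with hΦ
  have hS0 : 0 < S := prod_pos fun i _ => hs0 i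
  have hQ0 : 0 < Q := prod_pos fun i _ => hq0 i
  have hΦpos : 0 < Φ := prod_pos fun i _ => hφ i
  have hQS : Q * S = Φ := by
    rw [hQ, hS, hΦ, ← prod_mul_distrib]
    apply prod_congr rfl
    intro i _
    have := har i; have := hlog i
    simp only [hq, hs]
    field_simp
  have hinv : ∏ i, ((a i : ℝ) / ((a i).totient * Real.log (a i))) = 1 / S := by
    rw [hS, one_div, ← prod_inv_distrib]
    apply prod_congr rfl
    intro i _
    simp only [hs]
    rw [inv_div]
  have hwprod : ∏ i, ((a i : ℝ) / Real.log (a i) * (a i / ((a i).totient * Real.log (a i)))) =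
      Q / S := by
    rw [prod_mul_distrib, hinv]
    ring
  rw [hinv]
  -- x
  have hxS : S ≤ x := by
    refine le_trans ?_ hx
    have h1 := le_max_left (1 : ℝ) ((k + 1) / (κ * ρ))
    nlinarith
  have hxS2 : (k + 1) / (κ * ρ) * S ≤ x := by
    refine le_trans ?_ hx
    apply mul_le_mul_of_nonneg_right (le_max_right _ _) hS0.le
  have hx0 : (0 : ℝ) < x := by linarith
  have hT0 : (0 : ℝ) < #T := by
    have : 0 < ρ * x := by positivity
    linarith
  -- moments
  obtain ⟨hsingle, hsecond⟩ := hsec a hA2 y x T hT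
  rw [hwprod] at hsecond
  have hΩc : (#(Om a) : ℝ) = Φ := card_Om a (fun i => by have := hA10 i; omega)
  have hΩpos : 0 < #(Om a) := by
    have : (0 : ℝ) < #(Om a) := by rw [hΩc]; exact hΦpos
    exact_mod_cast this
  have hsumR : ∑ b ∈ Om a, (RT a T b : ℝ) =
      ∑ n ∈ T, ∏ i, (#((BB (a i)).filter (fun x => (a i * n + x).Prime)) : ℝ) := by
    have := sum_RT a T
    have h2 : ((∑ b ∈ Om a, RT a T b : ℕ) : ℝ) =
        ((∑ n ∈ T, ∏ i, #((BB (a i)).filter (fun x => (a i * n + x).Prime)) : ℕ) : ℝ) := by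
      exact_mod_cast this
    push_cast at h2
    exact h2
  have h1 : (#T : ℝ) * (η ^ k * Q) ≤ ∑ b ∈ Om a, (RT a T b : ℝ) := by
    rw [hsumR, ← nsmul_eq_mul, ← sum_const]
    apply sum_le_sum
    intro n hn
    have hnI := mem_Ioc.1 (hT hn)
    have e1 : η ^ k * Q = ∏ i, (η * q i) := by
      rw [prod_mul_distrib]; simp [hQ]
    rw [e1]
    apply prod_le_prod (fun i _ => (mul_pos hη (hq0 i)).le)
    intro i _
    apply hfirst (a i) (hA1 i) n (by omega)
    refine le_trans ?_ (hxa i)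
    exact_mod_cast hnI.2
  have h1' : ∑ b ∈ Om a, (RT a T b : ℝ) ≤ (#T : ℝ) * (C5 ^ k * Q) := by
    rw [hsumR, ← nsmul_eq_mul, ← sum_const]
    apply sum_le_sum
    intro n hn
    have e1 : C5 ^ k * Q = ∏ i, (C5 * q i) := by
      rw [prod_mul_distrib]; simp [hQ]
    rw [e1]
    apply prod_le_prod (fun i _ => Nat.cast_nonneg _)
    intro i _
    exact hsingle n i
  have hxT : (x : ℝ) ≤ #T / ρ := by
    rw [le_div_iff₀ hρ]
    linarith
  have h2 : ∑ b ∈ Om a, (RT a T b : ℝ) ^ 2 ≤ 2 * C5 / ρ * ((#T : ℝ) ^ 2 * (Q / S)) := by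
    push_cast at hsecond
    refine hsecond.trans ?_
    have e1 : Q ≤ #T / ρ * (Q / S) := by
      have : Q = S * (Q / S) := by field_simp
      calc Q = S * (Q / S) := this
        _ ≤ #T / ρ * (Q / S) := by
          apply mul_le_mul_of_nonneg_right (hxS.trans hxT) (by positivity)
    have e2 : (#T : ℝ) * Q ≤ #T * (#T / ρ * (Q / S)) := by gcongr
    have e3 : (#T : ℝ) * x * (Q / S) ≤ #T * (#T / ρ) * (Q / S) := by gcongr
    calc C5 * ((#T : ℝ) * Q + #T * x * (Q / S)) ≤
        C5 * (#T * (#T / ρ * (Q / S)) + #T * (#T / ρ) * (Q / S)) := by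
          apply mul_le_mul_of_nonneg_left (add_le_add e2 e3) hC5.le
      _ = _ := by ring
  have hmain := count_large (Om a) (fun b => (RT a T b : ℝ)) (#T * (η ^ k * Q))
    (2 * C5 / ρ * ((#T : ℝ) ^ 2 * (Q / S))) h1 h2 (by positivity) (by positivity) hΩpos
  have e5 : ((#T : ℝ) * (η ^ k * Q)) ^ 2 / (4 * (2 * C5 / ρ * ((#T : ℝ) ^ 2 * (Q / S)))) =
      κ₁ * Φ := by
    rw [hκ₁, ← hQS, pow_mul']
    field_simp
    ring
  have e6 : (#T : ℝ) * (η ^ k * Q) / (2 * (#(Om a) : ℝ)) = η ^ k / 2 * #T * (1 / S) := by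
    rw [hΩc, ← hQS]
    field_simp
  rw [e5] at hmain
  set G := (Om a).filter (fun b => (#T : ℝ) * (η ^ k * Q) / (2 * (#(Om a) : ℝ)) ≤ (RT a T b : ℝ))
    with hG
  -- large values
  set B1 := (Om a).filter (fun b => K * (#T * (1 / S)) < (RT a T b : ℝ)) with hB1
  have hB1c : (#B1 : ℝ) ≤ κ₁ / 4 * Φ := by
    have e1 : (#B1 : ℝ) * (K * (#T * (1 / S))) ≤ #T * (C5 ^ k * Q) := by
      refine le_trans ?_ h1'
      calc (#B1 : ℝ) * (K * (#T * (1 / S))) = ∑ b ∈ B1, K * (#T * (1 / S)) := by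
            rw [sum_const, nsmul_eq_mul]
        _ ≤ ∑ b ∈ B1, (RT a T b : ℝ) := by
            apply sum_le_sum
            intro b hb
            exact (mem_filter.1 hb).2.le
        _ ≤ _ := by
            apply sum_le_sum_of_subset_of_nonneg (filter_subset _ _)
            intro b _ _
            exact Nat.cast_nonneg _
    have e2 : (#B1 : ℝ) * K ≤ C5 ^ k * Φ := by
      rw [← hQS]
      have e3 : (#B1 : ℝ) * K * (#T * (1 / S)) ≤ C5 ^ k * (Q * S) * (#T * (1 / S)) := by
        calc (#B1 : ℝ) * K * (#T * (1 / S)) = (#B1 : ℝ) * (K * (#T * (1 / S))) := by ring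
          _ ≤ _ := e1
          _ = _ := by field_simp
      exact le_of_mul_le_mul_right e3 (by positivity)
    rw [hK] at e2
    have e4 : (#B1 : ℝ) * (4 * C5 ^ k / κ₁) = 4 * C5 ^ k * ((#B1 : ℝ) / κ₁) := by ring
    rw [e4] at e2
    have e6 : C5 ^ k * (4 * ((#B1 : ℝ) / κ₁)) ≤ C5 ^ k * Φ := by linarith
    have e7 := le_of_mul_le_mul_left e6 (by positivity)
    rw [← mul_div_assoc, div_le_iff₀ hκ₁0] at e7
    linarith
  -- equal forms
  set B2 := (Om a).filter (fun b => ¬ Function.Injective (fun i => (a i, b i))) with hB2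
  have hB2c : (#B2 : ℝ) ≤ κ₁ / 4 * Φ := by
    have hm : ∀ i, ⌈4 * (k : ℝ) ^ 2 / κ₁⌉₊ ≤ #(BB (a i)) := by
      intro i
      rw [card_BB (a i) (by have := hA10 i; omega), Nat.ceil_le]
      obtain ⟨-, hsq⟩ := phi_facts (a i) (hA10 i)
      have h3 : 4 * Φ0 ≤ Real.sqrt (a i) := by
        apply Real.le_sqrt_of_sq_le
        exact (Nat.le_ceil _).trans (by exact_mod_cast hAΦ i)
      linarith
    have h3 := noninj a _ hm
    have h4 : (#B2 : ℝ) * (⌈4 * (k : ℝ) ^ 2 / κ₁⌉₊ : ℝ) ≤ (k : ℝ) ^ 2 * Φ := by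
      rw [← hΩc]
      exact_mod_cast h3
    have h5 : (#B2 : ℝ) * (4 * (k : ℝ) ^ 2 / κ₁) ≤ (k : ℝ) ^ 2 * Φ := by
      refine le_trans ?_ h4
      exact mul_le_mul_of_nonneg_left (Nat.le_ceil _) (Nat.cast_nonneg _)
    rcases Nat.eq_zero_or_pos k with hk | hk
    · have : B2 = ∅ := by
        rw [hB2, filter_eq_empty_iff]
        intro b _ hb
        apply hb
        intro i
        exact absurd i.2 (by omega)
      rw [this]
      simp only [card_empty, Nat.cast_zero]
      positivity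
    · have hk0 : (0 : ℝ) < (k : ℝ) ^ 2 := by
        have : (0 : ℝ) < k := by exact_mod_cast hk
        positivity
      have e4 : (#B2 : ℝ) * (4 * (k : ℝ) ^ 2 / κ₁) = (k : ℝ) ^ 2 * (4 * (#B2 : ℝ) / κ₁) := by ring
      rw [e4] at h5
      have e7 := le_of_mul_le_mul_left h5 hk0
      rw [div_le_iff₀ hκ₁0] at e7
      linarith
  -- the good vectors
  have hsub : G ⊆ ((Om a).filter (fun b =>
      Function.Injective (fun i => (a i, b i)) ∧ k < RT a T b ∧
      κ * #T * (1 / S) ≤ RT a T b ∧ κ * RT a T b ≤ #T * (1 / S))) ∪ (B1 ∪ B2) := by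
    intro b hb
    rw [hG, mem_filter] at hb
    rw [mem_union, mem_union]
    by_cases hb1 : b ∈ B1
    · right; left; exact hb1
    by_cases hb2 : b ∈ B2
    · right; right; exact hb2
    left
    rw [hB1, mem_filter] at hb1
    rw [hB2, mem_filter] at hb2
    push Not at hb1 hb2
    have hlow : κ * #T * (1 / S) ≤ RT a T b := by
      refine le_trans ?_ hb.2
      rw [e6]
      gcongr
    have hup := hb1 hb.1
    rw [mem_filter]
    refine ⟨hb.1, hb2 hb.1, ?_, hlow, ?_⟩
    · have h3 : ((k : ℝ) + 1) ≤ κ * #T * (1 / S) := by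
        rw [mul_one_div, le_div_iff₀ hS0]
        have h4 : (k + 1) / (κ * ρ) * S ≤ #T / ρ := hxS2.trans hxT
        rw [div_mul_eq_mul_div, div_le_div_iff₀ (by positivity) hρ] at h4
        have h5 : ((k : ℝ) + 1) * S * ρ ≤ (κ * #T) * ρ := by linarith
        exact le_of_mul_le_mul_right h5 hρ
      have h6 : ((k : ℝ) + 1) ≤ RT a T b := h3.trans hlow
      have h7 : k + 1 ≤ RT a T b := by exact_mod_cast h6
      omega
    · calc κ * (RT a T b : ℝ) ≤ 1 / K * (K * (#T * (1 / S))) := by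
            apply mul_le_mul hκc hup (Nat.cast_nonneg _) (by positivity)
        _ = _ := by field_simp
  have hcard := (Finset.card_le_card hsub).trans
    ((Finset.card_union_le _ _).trans (Nat.add_le_add_left (Finset.card_union_le _ _) _))
  have hcard' : (#G : ℝ) ≤ (#((Om a).filter (fun b =>
      Function.Injective (fun i => (a i, b i)) ∧ k < RT a T b ∧
      κ * #T * (1 / S) ≤ RT a T b ∧ κ * RT a T b ≤ #T * (1 / S))) : ℝ) +
      ((#B1 : ℝ) + (#B2 : ℝ)) := by exact_mod_cast hcard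
  have h8 : κ * Φ ≤ κ₁ / 2 * Φ := mul_le_mul_of_nonneg_right hκa hΦpos.le
  linarith

end TH415.UL
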