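import Pool.Agent.H262R2.UK.Fin

set_option autoImplicit false
set_option maxHeartbeats 4000000

/-! # Moments for unequal leading coefficients -/

namespace TH415.UL

open Finset Pool.Agent.H262R2.UK
open Pool.Agent.H646 Pool.Agent.H646.Sv3M Pool.Agent.H646.TuplesM
open Pool.Agent.H646.MomentM (rat_moment)

open scoped Classical

variable {k : ℕ}

/-- all the vectors of reduced residues -/
noncomputable def Om (a : Fin k → ℕ) : Finset (Fin k → ℕ) := Fintype.piFinset (fun i => BB (a i))

/-- number of common prime values -/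
noncomputable def RT (a : Fin k → ℕ) (T : Finset ℕ) (b : Fin k → ℕ) : ℕ :=
  #{n ∈ T | ∀ i, (a i * n + b i).Prime}

theorem card_Om (a : Fin k → ℕ) (ha : ∀ i, 2 ≤ a i) : (#(Om a) : ℝ) = ∏ i, ((a i).totient : ℝ) := by
  rw [Om, Fintype.card_piFinset]
  push_cast
  apply prod_congr rfl
  intro i _
  rw [card_BB (a i) (ha i)]

theorem card_boxU (a : Fin k → ℕ) (Q : Fin k → ℕ → Prop) [∀ i, DecidablePred (Q i)] :
    #((Om a).filter (fun b => ∀ i, Q i (b i))) = ∏ i, #((BB (a i)).filter (Q i)) := by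
  have : (Om a).filter (fun b => ∀ i, Q i (b i)) =
      Fintype.piFinset (fun i => (BB (a i)).filter (Q i)) := by
    ext b
    simp only [Om, Finset.mem_filter, Fintype.mem_piFinset]
    constructor
    · rintro ⟨h1, h2⟩ i
      exact ⟨h1 i, h2 i⟩
    · intro h
      exact ⟨fun i => (h i).1, fun i => (h i).2⟩
  rw [this, Fintype.card_piFinset]

theorem sum_RT (a : Fin k → ℕ) (T : Finset ℕ) : ∑ b ∈ Om a, RT a T b =
    ∑ n ∈ T, ∏ i, #((BB (a i)).filter (fun x => (a i * n + x).Prime)) := by
  unfold RT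
  simp_rw [Finset.card_filter _ T]
  rw [Finset.sum_comm]
  refine Finset.sum_congr rfl fun n _ => ?_
  rw [← card_boxU a (fun i x => (a i * n + x).Prime), Finset.card_filter]

theorem sum_RT_sq (a : Fin k → ℕ) (T : Finset ℕ) : ∑ b ∈ Om a, RT a T b ^ 2 =
    ∑ n ∈ T, ∑ m ∈ T, ∏ i, #((BB (a i)).filter (fun x => (a i * n + x).Prime ∧ (a i * m + x).Prime)) := by
  have h : ∀ b : Fin k → ℕ, RT a T b ^ 2 = ∑ n ∈ T, ∑ m ∈ T,
      if ∀ i, ((a i * n + b i).Prime ∧ (a i * m + b i).Prime) then 1 else 0 := by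
    intro b
    unfold RT
    rw [Finset.card_filter, sq, Finset.sum_mul_sum]
    refine Finset.sum_congr rfl fun n _ => Finset.sum_congr rfl fun m _ => ?_
    by_cases h1 : ∀ i, (a i * n + b i).Prime
    · by_cases h2 : ∀ i, (a i * m + b i).Prime
      · rw [if_pos h1, if_pos h2, if_pos (fun i => ⟨h1 i, h2 i⟩), mul_one]
      · rw [if_pos h1, if_neg h2, if_neg (fun h => h2 fun i => (h i).2), mul_zero]
    · rw [if_neg h1, zero_mul, if_neg (fun h => h1 fun i => (h i).1)]
  simp_rw [h]
  rw [Finset.sum_comm]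
  refine Finset.sum_congr rfl fun n _ => ?_
  rw [Finset.sum_comm]
  refine Finset.sum_congr rfl fun m _ => ?_
  rw [← card_boxU a (fun i x => (a i * n + x).Prime ∧ (a i * m + x).Prime), Finset.card_filter]

/-- sums over pairs of a subset of an interval -/
theorem pair_sumT (g : ℕ → ℝ) (hg : ∀ m, 0 ≤ g m) (y x n : ℕ) (T : Finset ℕ) (hT : T ⊆ Ioc y (y + x))
    (hn : n ∈ T) (P : ℕ → ℝ) (D : ℝ) (h0 : P n ≤ D) (h1 : ∀ m ∈ T, n < m → P m ≤ g (m - n))
    (h2 : ∀ m ∈ T, m < n → P m ≤ g (n - m)) :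
    ∑ m ∈ T, P m ≤ D + 2 * ∑ m ∈ Icc 1 x, g m := by
  have hnI := mem_Ioc.1 (hT hn)
  have e1 : ∑ m ∈ T, P m = P n + (∑ m ∈ T.filter (fun m => n < m), P m +
      ∑ m ∈ T.filter (fun m => m < n), P m) := by
    rw [← Finset.add_sum_erase T P hn]
    congr 1
    rw [← Finset.sum_union]
    · apply Finset.sum_congr _ (fun _ _ => rfl)
      ext m
      simp only [mem_erase, mem_union, mem_filter]
      constructor
      · rintro ⟨h3, h4⟩
        rcases lt_trichotomy n m with h | h | h
        · exact Or.inl ⟨h4, h⟩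
        · exact absurd h.symm h3
        · exact Or.inr ⟨h4, h⟩
      · rintro (⟨h3, h4⟩ | ⟨h3, h4⟩)
        · exact ⟨by omega, h3⟩
        · exact ⟨by omega, h3⟩
    · rw [Finset.disjoint_left]
      intro m hm hm'
      rw [mem_filter] at hm hm'
      omega
  have e2 : ∑ m ∈ T.filter (fun m => n < m), P m ≤ ∑ m ∈ Icc 1 x, g m := by
    calc ∑ m ∈ T.filter (fun m => n < m), P m ≤ ∑ m ∈ T.filter (fun m => n < m), g (m - n) := by
          apply sum_le_sum
          intro m hm
          rw [mem_filter] at hm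
          exact h1 m hm.1 hm.2
      _ = ∑ d ∈ (T.filter (fun m => n < m)).image (fun m => m - n), g d := by
          rw [sum_image]
          intro m hm m' hm' h
          rw [Finset.mem_coe, mem_filter] at hm hm'
          simp only at h
          omega
      _ ≤ _ := by
          apply sum_le_sum_of_subset_of_nonneg
          · intro d hd
            rw [mem_image] at hd
            obtain ⟨m, hm, rfl⟩ := hd
            rw [mem_filter] at hm
            have := mem_Ioc.1 (hT hm.1)
            rw [mem_Icc]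
            omega
          · intro d _ _
            exact hg d
  have e3 : ∑ m ∈ T.filter (fun m => m < n), P m ≤ ∑ m ∈ Icc 1 x, g m := by
    calc ∑ m ∈ T.filter (fun m => m < n), P m ≤ ∑ m ∈ T.filter (fun m => m < n), g (n - m) := by
          apply sum_le_sum
          intro m hm
          rw [mem_filter] at hm
          exact h2 m hm.1 hm.2
      _ = ∑ d ∈ (T.filter (fun m => m < n)).image (fun m => n - m), g d := by
          rw [sum_image]
          intro m hm m' hm' h
          rw [Finset.mem_coe, mem_filter] at hm hm'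
          simp only at h
          omega
      _ ≤ _ := by
          apply sum_le_sum_of_subset_of_nonneg
          · intro d hd
            rw [mem_image] at hd
            obtain ⟨m, hm, rfl⟩ := hd
            rw [mem_filter] at hm
            have := mem_Ioc.1 (hT hm.1)
            rw [mem_Icc]
            omega
          · intro d _ _
            exact hg d
  linarith

/-- the second moment -/
theorem second (k : ℕ) : ∃ C : ℝ, 0 < C ∧ ∃ a₀ : ℕ, 2 ≤ a₀ ∧ ∀ a : Fin k → ℕ, (∀ i, a₀ ≤ a i) →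
    ∀ y x : ℕ, ∀ T ⊆ Ioc y (y + x),
    (∀ n : ℕ, ∀ i, (#((BB (a i)).filter (fun z => (a i * n + z).Prime)) : ℝ) ≤
      C * (a i / Real.log (a i))) ∧
    ((∑ b ∈ Om a, RT a T b ^ 2 : ℕ) : ℝ) ≤
      C * ((#T : ℝ) * ∏ i, ((a i : ℝ) / Real.log (a i)) +
        (#T : ℝ) * x * ∏ i, ((a i : ℝ) / Real.log (a i) * (a i / ((a i).totient * Real.log (a i))))) := by
  obtain ⟨C1, hC1, x1, hbt⟩ := bt
  obtain ⟨C2, hC2, x2, hpb⟩ := pair_bound
  obtain ⟨C4, hC4, hmom⟩ := rat_moment k
  refine ⟨C1 + (C1 ^ k + 2 * C4 * C2 ^ k), by positivity, max (max x1 x2) 2, le_max_right _ _, ?_⟩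
  intro a ha y x T hT
  have hax1 : ∀ i, x1 ≤ a i := fun i => ((le_max_left _ _).trans (le_max_left _ _)).trans (ha i)
  have hax2 : ∀ i, x2 ≤ a i := fun i => ((le_max_right _ _).trans (le_max_left _ _)).trans (ha i)
  have ha2 : ∀ i, 2 ≤ a i := fun i => (le_max_right _ _).trans (ha i)
  have har : ∀ i, (2 : ℝ) ≤ a i := fun i => by exact_mod_cast ha2 i
  have hlog : ∀ i, 0 < Real.log (a i) := fun i => Real.log_pos (by linarith [har i])
  have hφ : ∀ i, (0 : ℝ) < (a i).totient := fun i => by
    exact_mod_cast Nat.totient_pos.2 (by have := ha2 i; omega)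
  set q : Fin k → ℝ := fun i => (a i : ℝ) / Real.log (a i) with hq
  have hq0 : ∀ i, 0 < q i := fun i => div_pos (by linarith [har i]) (hlog i)
  set w : Fin k → ℝ := fun i => q i * (a i / ((a i).totient * Real.log (a i))) with hw
  have hw0 : ∀ i, 0 < w i := fun i =>
    mul_pos (hq0 i) (div_pos (by linarith [har i]) (mul_pos (hφ i) (hlog i)))
  have hBsub : ∀ i, ∀ Q : ℕ → Prop, ∀ [DecidablePred Q],
      #((BB (a i)).filter Q) ≤ #((Icc 1 (a i)).filter Q) := by
    intro i Q _
    apply Finset.card_le_card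
    apply Finset.filter_subset_filter
    intro x hx
    unfold BB at hx
    rw [Finset.mem_filter, Finset.mem_Ico] at hx
    rw [Finset.mem_Icc]
    omega
  have hsingle : ∀ i, ∀ n : ℕ, (#((BB (a i)).filter (fun x => (a i * n + x).Prime)) : ℝ) ≤
      C1 * q i := by
    intro i n
    have h1 : #((BB (a i)).filter (fun x => (a i * n + x).Prime)) ≤
        #((Icc 1 (a i)).filter (fun x => (x + a i * n).Prime)) := by
      refine (hBsub i _).trans (le_of_eq ?_)
      congr 1
      apply Finset.filter_congr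
      intro x _
      rw [add_comm]
    have h2 := hbt (a i) (hax1 i) (a i * n)
    calc (#((BB (a i)).filter (fun x => (a i * n + x).Prime)) : ℝ) ≤ _ := by exact_mod_cast h1
      _ ≤ _ := h2
      _ = C1 * q i := by rw [hq]; ring
  have hdiag : ∀ i, ∀ n : ℕ,
      (#((BB (a i)).filter (fun x => (a i * n + x).Prime ∧ (a i * n + x).Prime)) : ℝ) ≤ C1 * q i := by
    intro i n
    have h1 := hsingle i n
    simp only [and_self]
    exact h1
  have hoff : ∀ i, ∀ n m : ℕ, n < m →
      (#((BB (a i)).filter (fun x => (a i * n + x).Prime ∧ (a i * m + x).Prime)) : ℝ) ≤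
      C2 * w i * rat (m - n) := by
    intro i n m hnm
    have ha1 : 0 < a i := by have := ha2 i; omega
    have h1 : #((BB (a i)).filter (fun x => (a i * n + x).Prime ∧ (a i * m + x).Prime)) ≤
        #((Icc 1 (a i)).filter (fun x => (x + a i * n).Prime ∧ (x + a i * m).Prime)) := by
      refine (hBsub i _).trans (le_of_eq ?_)
      congr 1
      apply Finset.filter_congr
      intro x _
      rw [add_comm (a i * n), add_comm (a i * m)]
    have h2 := hpb (a i) (hax2 i) (a i * n) (a i * m) (Nat.mul_lt_mul_of_pos_left hnm ha1)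
    have h3 : a i * m - a i * n = a i * (m - n) := by rw [Nat.mul_sub]
    rw [h3] at h2
    have h4 := rat_mul_le (m := a i) (n := m - n) (by omega) (by omega)
    have hl := hlog i
    have hf := hφ i
    have hr := har i
    calc (#((BB (a i)).filter (fun x => (a i * n + x).Prime ∧ (a i * m + x).Prime)) : ℝ) ≤ _ := by
          exact_mod_cast h1
      _ ≤ _ := h2
      _ ≤ C2 * a i / Real.log (a i) ^ 2 * (rat (a i) * rat (m - n)) := by
          apply mul_le_mul_of_nonneg_left h4 (by positivity)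
      _ = C2 * w i * rat (m - n) := by
          rw [hw, hq]
          unfold rat
          field_simp
  have hsym : ∀ n m : ℕ, ∏ i, (#((BB (a i)).filter (fun x => (a i * n + x).Prime ∧ (a i * m + x).Prime)) : ℝ) =
      ∏ i, (#((BB (a i)).filter (fun x => (a i * m + x).Prime ∧ (a i * n + x).Prime)) : ℝ) := by
    intro n m
    apply prod_congr rfl
    intro i _
    congr 2
    apply Finset.filter_congr
    intro x _
    exact and_comm
  have hprodoff : ∀ n m : ℕ, n < m →
      ∏ i, (#((BB (a i)).filter (fun x => (a i * n + x).Prime ∧ (a i * m + x).Prime)) : ℝ) ≤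
      C2 ^ k * (∏ i, w i) * rat (m - n) ^ k := by
    intro n m hnm
    calc _ ≤ ∏ i, (C2 * w i * rat (m - n)) :=
          prod_le_prod (fun i _ => Nat.cast_nonneg _) (fun i _ => hoff i n m hnm)
      _ = _ := by
          rw [prod_mul_distrib, prod_mul_distrib]
          simp
  have hprodw : 0 ≤ ∏ i, w i := prod_nonneg fun i _ => (hw0 i).le
  have hprodq : 0 ≤ ∏ i, q i := prod_nonneg fun i _ => (hq0 i).le
  constructor
  · intro n i
    refine (hsingle i n).trans ?_
    have h1 : 0 ≤ C1 ^ k + 2 * C4 * C2 ^ k := by positivity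
    have h2 := (hq0 i).le
    show C1 * q i ≤ (C1 + (C1 ^ k + 2 * C4 * C2 ^ k)) * q i
    nlinarith
  rw [sum_RT_sq]
  push_cast
  have hrow : ∀ n ∈ T, ∑ m ∈ T,
      ∏ i, (#((BB (a i)).filter (fun x => (a i * n + x).Prime ∧ (a i * m + x).Prime)) : ℝ) ≤
      C1 ^ k * (∏ i, q i) + 2 * (C2 ^ k * (∏ i, w i) * (C4 * x)) := by
    intro n hn
    have h1 := pair_sumT (fun m => C2 ^ k * (∏ i, w i) * rat m ^ k) (fun m => by
        have := rat_nonneg m
        positivity) y x n T hT hn
      (fun m => ∏ i, (#((BB (a i)).filter (fun x => (a i * n + x).Prime ∧ (a i * m + x).Prime)) : ℝ))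
      (C1 ^ k * ∏ i, q i)
      (by
        calc _ ≤ ∏ i, (C1 * q i) :=
              prod_le_prod (fun i _ => Nat.cast_nonneg _) (fun i _ => hdiag i n)
          _ = _ := by rw [prod_mul_distrib]; simp)
      (fun m _ hnm => hprodoff n m hnm)
      (fun m _ hnm => by
        rw [hsym n m]
        exact hprodoff m n hnm)
    refine h1.trans ?_
    rw [← Finset.mul_sum]
    have h2 : C2 ^ k * (∏ i, w i) * ∑ m ∈ Icc 1 x, rat m ^ k ≤ C2 ^ k * (∏ i, w i) * (C4 * x) :=
      mul_le_mul_of_nonneg_left (hmom x) (by positivity)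
    linarith
  refine (Finset.sum_le_sum hrow).trans ?_
  rw [Finset.sum_const, nsmul_eq_mul]
  have hT0 : (0 : ℝ) ≤ #T := Nat.cast_nonneg _
  have hx0 : (0 : ℝ) ≤ x := Nat.cast_nonneg _
  have e1 : (#T : ℝ) * (C1 ^ k * (∏ i, q i) + 2 * (C2 ^ k * (∏ i, w i) * (C4 * x))) =
      C1 ^ k * (#T * ∏ i, q i) + 2 * C4 * C2 ^ k * (#T * x * ∏ i, w i) := by ring
  rw [e1]
  have h5 : 0 ≤ #T * ∏ i, q i := by positivity
  have h6 : 0 ≤ (#T : ℝ) * x * ∏ i, w i := by positivity
  have h7 : 0 ≤ C1 ^ k := by positivity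
  have h8 : 0 ≤ 2 * C4 * C2 ^ k := by positivity
  show _ ≤ (C1 + (C1 ^ k + 2 * C4 * C2 ^ k)) * (#T * (∏ i, q i) + #T * x * ∏ i, w i)
  have h9 := hC1.le
  nlinarith [mul_nonneg h9 h5, mul_nonneg h9 h6, mul_nonneg h7 h6, mul_nonneg h8 h5]

end TH415.UL
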